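import Mathlib
import Pool.Agent.Q1.M3.Pg.Latt
import Pool.Agent.Q1.M3.Geo
import Pool.Agent.Q1.M4.Geo
import Pool.Agent.H42.Q1.Cells

set_option autoImplicit false
open Finset Filter Topology

/-! # M7, J20 (d): visible sets are in the region of a step

`conn_cells`, `conn_subset`, `conn_R` : a preconnected set far from the explored vertices, from the
target and from the complement of `D` which meets a visible cell of level `K` is in one component of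
`P \ H`. `start_mem`, `start_next` : the cells of level `K` in the cells of the target are visible. -/

namespace Pool.Agent.H53.Q1

open Pool.Agent.Q1.M3 Pool.Agent.Q1.M3.Pg
open Pool.Agent.Q1.M4 (Adj4 Conn4 rect Reg Om mem_Om mem_rect Om_subset)
open Pool.Agent.H81.Q1 (pt)
open Pool.Agent.H42.Q1 (isOpen_fat dist_cfat exists_fat fat_sub_cfat AdjC.symm)

/-! ### Meshes, unit cells and fat cells -/

lemma mesh_eq {k K : ℕ} (h : k ≤ K) : mesh k = 3 ^ (K - k) * (3 * mesh (K + 1)) := by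
  unfold mesh
  have h1 : (1 / 3 : ℝ) ^ (K + 1) = (1 / 3) ^ k * ((1 / 3) ^ (K - k) * (1 / 3)) := by
    rw [← mul_assoc, ← pow_add, show k + (K - k) = K by omega, pow_succ]
  rw [h1]
  have h2 : (3 : ℝ) ^ (K - k) * (1 / 3) ^ (K - k) = 1 := by
    rw [← mul_pow]; norm_num
  calc (1 / 3 : ℝ) ^ k = (1 / 3) ^ k * 1 := by ring
    _ = (1 / 3) ^ k * (3 ^ (K - k) * (1 / 3) ^ (K - k)) := by rw [h2]
    _ = _ := by ring

lemma mesh_succ (K : ℕ) : mesh K = 3 * mesh (K + 1) := by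
  rw [mesh_eq (le_refl K)]; simp

/-- the lower line of a fat cell -/
lemma gx_lo {k K : ℕ} (h : k ≤ K) (a : ℝ) (i : ℤ) :
    gx K a (lo (K - k) i) = a + (i - 1 / 3) * mesh k := by
  unfold gx lo
  rw [mesh_eq h]
  push_cast
  ring

/-- the upper line of a fat cell -/
lemma gx_hi {k K : ℕ} (h : k ≤ K) (a : ℝ) (i : ℤ) :
    gx K a (hi (K - k) i) = a + (i + 4 / 3) * mesh k := by
  unfold gx hi
  rw [mesh_eq h]
  push_cast
  ring

/-- the closed squares of the unit cells of a fat cell are in the closed fat cell -/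
lemma rect_sub_cfat {K : ℕ} {o : ℂ} {q : Cell} (hq : q.1 ≤ K) {c : ℤ × ℤ} (hc : c ∈ fc K q) :
    rect (gx K o.re) (gx K o.im) c ⊆ cfat o q := by
  rintro z ⟨⟨h1, h2⟩, h3, h4⟩
  rw [mem_fc] at hc
  obtain ⟨⟨c1, c2⟩, c3, c4⟩ := hc
  refine ⟨?_, ?_, ?_, ?_⟩
  · rw [← gx_lo hq]; exact ((gx_mono K o.re).monotone c1).trans h1
  · rw [← gx_hi hq]; exact h2.trans ((gx_mono K o.re).monotone (by omega))
  · rw [← gx_lo hq]; exact ((gx_mono K o.im).monotone c3).trans h3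
  · rw [← gx_hi hq]; exact h4.trans ((gx_mono K o.im).monotone (by omega))

/-- the cell of level `K` around a unit cell -/
def cellOf (K : ℕ) (c : ℤ × ℤ) : Cell := (K, (c.1 / 3, c.2 / 3))

lemma mem_fc_cellOf (K : ℕ) (c : ℤ × ℤ) : c ∈ fc K (cellOf K c) := by
  rw [mem_fc]
  unfold cellOf lo hi
  simp only [Nat.sub_self, pow_zero]
  omega

/-- the closed square of a unit cell is in the open fat cell of the cell around it -/
lemma rect_sub_fat (K : ℕ) (o : ℂ) (c : ℤ × ℤ) :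
    rect (gx K o.re) (gx K o.im) c ⊆ fat o (cellOf K c) := by
  rintro z ⟨⟨h1, h2⟩, h3, h4⟩
  have hm := mesh_pos (K + 1)
  have e1 : (3 * (c.1 / 3) : ℤ) ≤ c.1 ∧ c.1 + 1 ≤ 3 * (c.1 / 3) + 3 := by omega
  have e2 : (3 * (c.2 / 3) : ℤ) ≤ c.2 ∧ c.2 + 1 ≤ 3 * (c.2 / 3) + 3 := by omega
  have key : ∀ (a : ℝ) (n i : ℤ) (s : ℝ), 3 * i ≤ n ∧ n + 1 ≤ 3 * i + 3 → gx K a n ≤ s →
      s ≤ gx K a (n + 1) → a + (i - 1 / 3) * mesh K < s ∧ s < a + (i + 4 / 3) * mesh K := by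
    intro a n i s hn hs1 hs2
    unfold gx at hs1 hs2
    rw [mesh_succ K]
    have f1 : (3 * i : ℝ) ≤ n := by exact_mod_cast hn.1
    have f2 : ((n + 1 : ℤ) : ℝ) ≤ 3 * i + 3 := by exact_mod_cast hn.2
    have g1 : (3 * i : ℝ) * mesh (K + 1) ≤ n * mesh (K + 1) := mul_le_mul_of_nonneg_right f1 hm.le
    have g2 : ((n + 1 : ℤ) : ℝ) * mesh (K + 1) ≤ (3 * i + 3) * mesh (K + 1) :=
      mul_le_mul_of_nonneg_right f2 hm.le
    constructor <;> nlinarith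
  have k1 := key o.re c.1 (c.1 / 3) z.re e1 h1 h2
  have k2 := key o.im c.2 (c.2 / 3) z.im e2 h3 h4
  exact ⟨k1.1, k1.2, k2.1, k2.2⟩

/-! ### Visible cells along a preconnected set -/

section

variable {D : Set ℂ} {δ : ℝ} {o : ℂ} {qb : Cell} {K : ℕ} {E : Finset (ℤ × ℤ)} {T : Set ℂ}

/-- If all cells of level `K` meeting the preconnected set `T` are free and one of them is visible,
then all of them are visible. -/
lemma vis_all (hD : Bornology.IsBounded D) (hT : IsPreconnected T)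
    (hF : ∀ q : Cell, q.1 = K → (fat o q ∩ T).Nonempty → Free D δ o E q)
    (h0 : ∃ q ∈ Uk D δ o qb K E, (fat o q ∩ T).Nonempty) :
    ∀ q : Cell, q.1 = K → (fat o q ∩ T).Nonempty → q ∈ Uk D δ o qb K E := by
  intro q hq hqT
  by_contra hcon
  obtain ⟨q0, hq0, z0, hz0, hz0T⟩ := h0
  obtain ⟨z1, hz1, hz1T⟩ := hqT
  set u : Set ℂ := ⋃ p ∈ {p : Cell | p ∈ Uk D δ o qb K E}, fat o p with hu
  set v : Set ℂ := ⋃ p ∈ {p : Cell | p.1 = K ∧ p ∉ Uk D δ o qb K E}, fat o p with hv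
  have hou : IsOpen u := isOpen_biUnion fun p _ => isOpen_fat o p
  have hov : IsOpen v := isOpen_biUnion fun p _ => isOpen_fat o p
  have hcov : T ⊆ u ∪ v := by
    intro z hz
    obtain ⟨p, hp, hzp⟩ := exists_fat o z K
    by_cases h : p ∈ Uk D δ o qb K E
    · exact Or.inl (Set.mem_iUnion₂.2 ⟨p, h, hzp⟩)
    · exact Or.inr (Set.mem_iUnion₂.2 ⟨p, ⟨hp, h⟩, hzp⟩)
  obtain ⟨z, hzT, hzu, hzv⟩ := hT u v hou hov hcov
    ⟨z0, hz0T, Set.mem_iUnion₂.2 ⟨q0, hq0, hz0⟩⟩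
    ⟨z1, hz1T, Set.mem_iUnion₂.2 ⟨q, ⟨hq, hcon⟩, hz1⟩⟩
  obtain ⟨p, hp, hzp⟩ := Set.mem_iUnion₂.1 hzu
  obtain ⟨p', ⟨hp'K, hp'⟩, hzp'⟩ := Set.mem_iUnion₂.1 hzv
  apply hp'
  have hp2 : p ∈ Uk D δ o qb K E := hp
  rw [mem_Uk hD] at hp2 ⊢
  exact ConnC.cons hp'K (hF p' hp'K ⟨z, hzp', hzT⟩) ⟨z, hzp', hzp⟩ hp2

/-- cells near a point far from the explored vertices are free -/
lemma free_of_far {ε : ℝ} (hδ : 0 < δ) {z : ℂ} (hε : 4 * mesh K < ε) (h1 : Metric.ball z ε ⊆ D)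
    (h2 : ∀ v : ℤ × ℤ, dist (pt δ v) z < ε → star1 v ⊆ E) {q : Cell} (hq : q.1 = K)
    (hz : z ∈ fat o q) : Free D δ o E q := by
  have hzc := fat_sub_cfat o q hz
  refine ⟨fun w hw => h1 ?_, fun e he => ?_⟩
  · rw [Metric.mem_ball]
    have := dist_cfat hw hzc
    rw [hq] at this
    linarith
  · obtain ⟨v, hv, hev⟩ := mem_star.1 he
    rw [mem_verts hδ] at hv
    refine h2 v ?_ hev
    have := dist_cfat (fat_sub_cfat o q hv) hzc
    rw [hq] at this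
    linarith

/-- **CONN (1)** -/
theorem conn_cells (hD : Bornology.IsBounded D) {ε : ℝ} (hδ : 0 < δ) (hε : 4 * mesh K < ε)
    (hT : IsPreconnected T) (h1 : ∀ z ∈ T, Metric.ball z ε ⊆ D)
    (h2 : ∀ z ∈ T, ∀ v : ℤ × ℤ, dist (pt δ v) z < ε → star1 v ⊆ E)
    (h4 : ∃ q ∈ Uk D δ o qb K E, (fat o q ∩ T).Nonempty) :
    ∀ q : Cell, q.1 = K → (fat o q ∩ T).Nonempty → q ∈ Uk D δ o qb K E :=
  vis_all hD hT (fun _ hq ⟨z, hz, hzT⟩ => free_of_far hδ hε (h1 z hzT) (h2 z hzT) hq hz) h4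

/-- **CONN (2), first part**: the unit cells meeting `T` are in `P \ H`. -/
theorem conn_sdiff (hD : Bornology.IsBounded D) {ε : ℝ} (hδ : 0 < δ) (hε : 4 * mesh K < ε)
    (hT : IsPreconnected T) (h1 : ∀ z ∈ T, Metric.ball z ε ⊆ D)
    (h2 : ∀ z ∈ T, ∀ v : ℤ × ℤ, dist (pt δ v) z < ε → star1 v ⊆ E) {C : Finset Cell} {BB : Cell}
    (hC : ∀ q ∈ C, q.1 ≤ K) (hB : BB.1 ≤ K)
    (h3 : ∀ z ∈ T, (∀ q ∈ C, z ∉ cfat o q) ∧ z ∉ cfat o BB)
    (h4 : ∃ q ∈ Uk D δ o qb K E, (fat o q ∩ T).Nonempty) {c : ℤ × ℤ}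
    (hc : (rect (gx K o.re) (gx K o.im) c ∩ T).Nonempty) :
    c ∈ PP K (Uk D δ o qb K E) C \ HH K (Uk D δ o qb K E) C BB := by
  obtain ⟨z, hz, hzT⟩ := hc
  have hU : cellOf K c ∈ Uk D δ o qb K E :=
    conn_cells hD hδ hε hT h1 h2 h4 _ rfl ⟨z, rect_sub_fat K o c hz, hzT⟩
  rw [Finset.mem_sdiff]
  refine ⟨flat_sub_PP (F := Uk D δ o qb K E) subset_union_left
    (fc_subset_flat hU (mem_fc_cellOf K c)), ?_⟩
  intro h
  rcases mem_union.1 h with h | h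
  · obtain ⟨q, hq, hcq⟩ := mem_flat.1 h
    exact (h3 z hzT).1 q hq (rect_sub_cfat (hC q hq) hcq hz)
  · exact (h3 z hzT).2 (rect_sub_cfat hB (mem_inter.1 h).1 hz)

end

/-! ### Components -/

lemma comp_eq {A : Finset (ℤ × ℤ)} {c d : ℤ × ℤ} (hc : c ∈ A) (h : d ∈ comp A c) :
    comp A d = comp A c := by
  have hd := (mem_comp.1 h)
  apply Finset.Subset.antisymm
  · exact subset_comp (comp_conn hd.1) (comp_subset _ _) (mem_comp.2 ⟨hc, hd.2.symm hc⟩)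
  · exact subset_comp (comp_conn hc) (comp_subset _ _) h

/-- two cells containing a point are joined by cells containing the point -/
lemma cells_joined {x y : ℤ → ℝ} (hx : StrictMono x) (hy : StrictMono y) {A : Finset (ℤ × ℤ)}
    {z : ℂ} (hA : ∀ c, z ∈ rect x y c → c ∈ A) {c d : ℤ × ℤ} (hc : z ∈ rect x y c)
    (hd : z ∈ rect x y d) : d ∈ comp A c := by
  obtain ⟨c1, c2⟩ := c
  obtain ⟨d1, d2⟩ := d
  have key : ∀ (x : ℤ → ℝ), StrictMono x → ∀ (s : ℝ) (a b : ℤ), x a ≤ s → s ≤ x (a + 1) →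
      x b ≤ s → s ≤ x (b + 1) → b = a ∨ b = a + 1 ∨ b = a - 1 := by
    intro x hx s a b h1 h2 h3 h4
    have e1 : a ≤ b + 1 := hx.le_iff_le.1 (h1.trans h4)
    have e2 : b ≤ a + 1 := hx.le_iff_le.1 (h3.trans h2)
    omega
  have k1 := key x hx z.re c1 d1 hc.1.1 hc.1.2 hd.1.1 hd.1.2
  have k2 := key y hy z.im c2 d2 hc.2.1 hc.2.2 hd.2.1 hd.2.2
  have hmid : z ∈ rect x y (d1, c2) := ⟨hd.1, hc.2⟩
  have s1 : (d1, c2) ∈ comp A (c1, c2) := by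
    rcases k1 with h | h | h
    · rw [h]; exact self_mem_comp (hA _ hc)
    · subst h
      have := adj_right (c1 + 1) c2
      rw [add_sub_cancel_right] at this
      exact comp_adj (self_mem_comp (hA _ hc)) (hA _ hmid) this
    · subst h
      exact comp_adj (self_mem_comp (hA _ hc)) (hA _ hmid) (adj_left c1 c2)
  rcases k2 with h | h | h
  · rw [h]; exact s1
  · subst h
    have := adj_up d1 (c2 + 1)
    rw [add_sub_cancel_right] at this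
    exact comp_adj s1 (hA _ hd) this
  · subst h
    exact comp_adj s1 (hA _ hd) (adj_down d1 c2)

lemma isClosed_rect (x y : ℤ → ℝ) (c : ℤ × ℤ) : IsClosed (rect x y c) := by
  have : rect x y c = Complex.re ⁻¹' Set.Icc (x c.1) (x (c.1 + 1)) ∩
      Complex.im ⁻¹' Set.Icc (y c.2) (y (c.2 + 1)) := by
    ext z; exact Iff.rfl
  rw [this]
  exact (isClosed_Icc.preimage Complex.continuous_re).inter
    (isClosed_Icc.preimage Complex.continuous_im)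

lemma isClosed_Reg (x y : ℤ → ℝ) (Q : Finset (ℤ × ℤ)) : IsClosed (Reg Q x y) := by
  have : Reg Q x y = ⋃ c ∈ Q, rect x y c := by
    ext z
    simp [Reg]
  rw [this]
  exact Set.Finite.isClosed_biUnion (Finset.finite_toSet Q) fun c _ => isClosed_rect x y c

/-- A preconnected set all of whose unit cells are in `A` is in the open region of one component. -/
lemma subset_Om_comp {x y : ℤ → ℝ} (hx : StrictMono x) (hy : StrictMono y)
    {A : Finset (ℤ × ℤ)} {T : Set ℂ} (hT : IsPreconnected T)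
    (hA : ∀ c, (rect x y c ∩ T).Nonempty → c ∈ A) {c : ℤ × ℤ}
    (hc : (rect x y c ∩ T).Nonempty) :
    T ⊆ Om (comp A c) x y := by
  have hcA := hA c hc
  have key : ∀ z ∈ T, z ∈ Reg (comp A c) x y → z ∈ Om (comp A c) x y := by
    intro z hzT hz
    rw [mem_Om hx hy]
    refine ⟨hz, fun d hd => ?_⟩
    obtain ⟨e, he, hze⟩ := hz
    have h1 : d ∈ comp A e := cells_joined hx hy (fun c' hc' => hA c' ⟨z, hc', hzT⟩) hze hd
    rwa [comp_eq hcA he] at h1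
  intro z hz
  by_contra hcon
  obtain ⟨z0, hz0, hz0T⟩ := hc
  have h0 : z0 ∈ Om (comp A c) x y := key z0 hz0T ⟨c, self_mem_comp hcA, hz0⟩
  obtain ⟨w, hwT, hw1, hw2⟩ := hT (Om (comp A c) x y) (Reg (comp A c) x y)ᶜ isOpen_interior
    (isClosed_Reg x y _).isOpen_compl
    (fun w hw => by
      by_cases h : w ∈ Reg (comp A c) x y
      · exact Or.inl (key w hw h)
      · exact Or.inr h)
    ⟨z0, hz0T, h0⟩ ⟨z, hz, fun h => hcon (key z hz h)⟩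
  exact hw2 (Om_subset _ _ _ hw1)

lemma exists_rect (K : ℕ) (o z : ℂ) : ∃ d, z ∈ rect (gx K o.re) (gx K o.im) d := by
  have hm := mesh_pos (K + 1)
  have e : ∀ x y : ℝ, gx K y ⌊(x - y) / mesh (K + 1)⌋ ≤ x ∧
      x ≤ gx K y (⌊(x - y) / mesh (K + 1)⌋ + 1) := by
    intro x y
    have h1 := Int.floor_le ((x - y) / mesh (K + 1))
    have h2 := Int.lt_floor_add_one ((x - y) / mesh (K + 1))
    rw [le_div_iff₀ hm] at h1
    rw [div_lt_iff₀ hm] at h2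
    unfold gx
    push_cast
    constructor <;> nlinarith
  exact ⟨(⌊(z.re - o.re) / mesh (K + 1)⌋, ⌊(z.im - o.im) / mesh (K + 1)⌋), e _ _, e _ _⟩

section

variable {D : Set ℂ} {δ : ℝ} {o : ℂ} {qb : Cell} {K : ℕ} {E : Finset (ℤ × ℤ)} {T : Set ℂ}

/-- **CONN (2), (3)**: `T` is in the open region of the component of any unit cell meeting `T`. -/
theorem conn_subset (hD : Bornology.IsBounded D) {ε : ℝ} (hδ : 0 < δ) (hε : 4 * mesh K < ε)
    (hT : IsPreconnected T) (h1 : ∀ z ∈ T, Metric.ball z ε ⊆ D)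
    (h2 : ∀ z ∈ T, ∀ v : ℤ × ℤ, dist (pt δ v) z < ε → star1 v ⊆ E) {C : Finset Cell} {BB : Cell}
    (hC : ∀ q ∈ C, q.1 ≤ K) (hB : BB.1 ≤ K)
    (h3 : ∀ z ∈ T, (∀ q ∈ C, z ∉ cfat o q) ∧ z ∉ cfat o BB)
    (h4 : ∃ q ∈ Uk D δ o qb K E, (fat o q ∩ T).Nonempty) {c : ℤ × ℤ}
    (hc : (rect (gx K o.re) (gx K o.im) c ∩ T).Nonempty) :
    T ⊆ Om (comp (PP K (Uk D δ o qb K E) C \ HH K (Uk D δ o qb K E) C BB) c)
      (gx K o.re) (gx K o.im) :=
  subset_Om_comp (gx_mono K o.re) (gx_mono K o.im) hT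
    (fun _ hc => conn_sdiff hD hδ hε hT h1 h2 hC hB h3 h4 hc) hc

/-- **CONN (2), second part** -/
theorem conn_comp (hD : Bornology.IsBounded D) {ε : ℝ} (hδ : 0 < δ) (hε : 4 * mesh K < ε)
    (hT : IsPreconnected T) (h1 : ∀ z ∈ T, Metric.ball z ε ⊆ D)
    (h2 : ∀ z ∈ T, ∀ v : ℤ × ℤ, dist (pt δ v) z < ε → star1 v ⊆ E) {C : Finset Cell} {BB : Cell}
    (hC : ∀ q ∈ C, q.1 ≤ K) (hB : BB.1 ≤ K)
    (h3 : ∀ z ∈ T, (∀ q ∈ C, z ∉ cfat o q) ∧ z ∉ cfat o BB)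
    (h4 : ∃ q ∈ Uk D δ o qb K E, (fat o q ∩ T).Nonempty) {c c' : ℤ × ℤ}
    (hc : (rect (gx K o.re) (gx K o.im) c ∩ T).Nonempty)
    (hc' : (rect (gx K o.re) (gx K o.im) c' ∩ T).Nonempty) :
    c' ∈ comp (PP K (Uk D δ o qb K E) C \ HH K (Uk D δ o qb K E) C BB) c := by
  obtain ⟨z, hz, hzT⟩ := hc'
  have := conn_subset hD hδ hε hT h1 h2 hC hB h3 h4 hc hzT
  exact ((mem_Om (gx_mono K o.re) (gx_mono K o.im)).1 this).2 c' hz

/-- **CONN (3)** for the data of a step. -/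
theorem conn_R (hD : Bornology.IsBounded D) {ε : ℝ} (hδ : 0 < δ) (hε : 4 * mesh K < ε)
    (hT : IsPreconnected T) (h1 : ∀ z ∈ T, Metric.ball z ε ⊆ D)
    (h2 : ∀ z ∈ T, ∀ v : ℤ × ℤ, dist (pt δ v) z < ε → star1 v ⊆ E) {C : Finset Cell} {BB : Cell}
    (hC : ∀ q ∈ C, q.1 ≤ K) (hB : BB.1 ≤ K)
    (h3 : ∀ z ∈ T, (∀ q ∈ C, z ∉ cfat o q) ∧ z ∉ cfat o BB)
    (h4 : ∃ q ∈ Uk D δ o qb K E, (fat o q ∩ T).Nonempty) {b0 : ℤ × ℤ} {s : (ℤ × ℤ) × ℤ}
    (hs : s.1 ∈ PP K (Uk D δ o qb K E) C \ HH K (Uk D δ o qb K E) C BB)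
    {c : ℤ × ℤ} (hc : (rect (gx K o.re) (gx K o.im) c ∩ T).Nonempty)
    (hcR : c ∈ (SD.mk K (Uk D δ o qb K E) C BB b0 s).R) :
    T ⊆ Om (SD.mk K (Uk D δ o qb K E) C BB b0 s).R (gx K o.re) (gx K o.im) := by
  have h := conn_subset hD hδ hε hT h1 h2 hC hB h3 h4 hc
  have e : comp (PP K (Uk D δ o qb K E) C \ HH K (Uk D δ o qb K E) C BB) c =
      (SD.mk K (Uk D δ o qb K E) C BB b0 s).R := comp_eq hs hcR
  rwa [e] at h

end

/-! ### The visible cells near the target -/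

/-- The core of a fat cell: the points at distance at least `6` unit lines from the boundary. -/
def core (o : ℂ) (K : ℕ) (q : Cell) : Set ℂ :=
  {z | (gx K o.re (lo (K - q.1) q.2.1 + 6) ≤ z.re ∧ z.re ≤ gx K o.re (hi (K - q.1) q.2.1 - 6)) ∧
    (gx K o.im (lo (K - q.1) q.2.2 + 6) ≤ z.im ∧ z.im ≤ gx K o.im (hi (K - q.1) q.2.2 - 6))}

lemma fat_eq (o : ℂ) {K : ℕ} {q : Cell} (hq : q.1 ≤ K) (z : ℂ) : z ∈ fat o q ↔
    (gx K o.re (lo (K - q.1) q.2.1) < z.re ∧ z.re < gx K o.re (hi (K - q.1) q.2.1)) ∧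
    (gx K o.im (lo (K - q.1) q.2.2) < z.im ∧ z.im < gx K o.im (hi (K - q.1) q.2.2)) := by
  rw [gx_lo hq, gx_hi hq, gx_lo hq, gx_hi hq]
  unfold fat
  simp only [Set.mem_ofPred_eq]
  tauto

lemma cfat_eq (o : ℂ) {K : ℕ} {q : Cell} (hq : q.1 ≤ K) (z : ℂ) : z ∈ cfat o q ↔
    (gx K o.re (lo (K - q.1) q.2.1) ≤ z.re ∧ z.re ≤ gx K o.re (hi (K - q.1) q.2.1)) ∧
    (gx K o.im (lo (K - q.1) q.2.2) ≤ z.im ∧ z.im ≤ gx K o.im (hi (K - q.1) q.2.2)) := by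
  rw [gx_lo hq, gx_hi hq, gx_lo hq, gx_hi hq]
  unfold cfat
  simp only [Set.mem_ofPred_eq]
  tauto

lemma gx_add (K : ℕ) (a : ℝ) (N M : ℤ) : gx K a (N + M) = gx K a N + M * mesh (K + 1) := by
  unfold gx; push_cast; ring

lemma center_fat (o : ℂ) (q : Cell) :
    (⟨o.re + (q.2.1 + 1 / 2) * mesh q.1, o.im + (q.2.2 + 1 / 2) * mesh q.1⟩ : ℂ) ∈ fat o q := by
  have hm := mesh_pos q.1
  refine ⟨?_, ?_, ?_, ?_⟩ <;> simp only <;> nlinarith

/-- a cell of level `K` meeting the core of `q` is inside `q` -/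
lemma core_cell {o : ℂ} {K : ℕ} {q p : Cell} (hq : q.1 ≤ K) (hp : p.1 = K) {z : ℂ}
    (hz : z ∈ core o K q) (hzp : z ∈ fat o p) : cfat o p ⊆ fat o q := by
  intro w hw
  rw [fat_eq o hp.le] at hzp
  rw [cfat_eq o hp.le] at hw
  rw [fat_eq o hq]
  have hm := mesh_pos (K + 1)
  have key : ∀ (a : ℝ) (A B i : ℤ) (s t : ℝ), gx K a (A + 6) ≤ s → s ≤ gx K a (B - 6) →
      gx K a (lo (K - p.1) i) < s → s < gx K a (hi (K - p.1) i) →
      gx K a (lo (K - p.1) i) ≤ t → t ≤ gx K a (hi (K - p.1) i) →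
      gx K a A < t ∧ t < gx K a B := by
    intro a A B i s t h1 h2 h3 h4 h5 h6
    have e : hi (K - p.1) i = lo (K - p.1) i + 5 := by
      rw [hp, Nat.sub_self]; unfold lo hi; ring
    rw [e] at h4 h6
    rw [gx_add] at h1 h4 h6
    rw [sub_eq_add_neg, gx_add] at h2
    push_cast at h1 h2 h4 h6
    constructor <;> linarith
  obtain ⟨⟨a1, a2⟩, a3, a4⟩ := hz
  obtain ⟨⟨b1, b2⟩, b3, b4⟩ := hzp
  obtain ⟨⟨c1, c2⟩, c3, c4⟩ := hw
  exact ⟨key _ _ _ _ _ _ a1 a2 b1 b2 c1 c2, key _ _ _ _ _ _ a3 a4 b3 b4 c3 c4⟩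

lemma convex_core (o : ℂ) (K : ℕ) (q : Cell) : Convex ℝ (core o K q) := by
  have : core o K q = Complex.reLm ⁻¹' Set.Icc (gx K o.re (lo (K - q.1) q.2.1 + 6))
      (gx K o.re (hi (K - q.1) q.2.1 - 6)) ∩ Complex.imLm ⁻¹' Set.Icc
      (gx K o.im (lo (K - q.1) q.2.2 + 6)) (gx K o.im (hi (K - q.1) q.2.2 - 6)) := by
    ext z; exact Iff.rfl
  rw [this]
  exact ((convex_Icc _ _).linear_preimage _).inter ((convex_Icc _ _).linear_preimage _)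

lemma lo_eq27 {d : ℕ} (h : 3 ≤ d) (i : ℤ) : ∃ a, lo d i = 27 * a := by
  obtain ⟨n, rfl⟩ := Nat.exists_eq_add_of_le h
  exact ⟨3 ^ n * (3 * i - 1), by unfold lo; rw [pow_add]; ring⟩

lemma hi_eq27 {d : ℕ} (h : 3 ≤ d) (i : ℤ) : ∃ a, hi d i = 27 * a := by
  obtain ⟨n, rfl⟩ := Nat.exists_eq_add_of_le h
  exact ⟨3 ^ n * (3 * i + 4), by unfold hi; rw [pow_add]; ring⟩

/-- the cores of adjacent coarse cells meet -/
lemma core_adj {o : ℂ} {K : ℕ} {q q' : Cell} (hq : q.1 + 3 ≤ K) (hq' : q'.1 + 3 ≤ K)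
    (h : AdjC o q q') : (core o K q ∩ core o K q').Nonempty := by
  obtain ⟨z, hz, hz'⟩ := h
  rw [fat_eq o (K := K) (by omega)] at hz hz'
  have key : ∀ (a s : ℝ) (i i' : ℤ),
      gx K a (lo (K - q.1) i) < s → s < gx K a (hi (K - q.1) i) →
      gx K a (lo (K - q'.1) i') < s → s < gx K a (hi (K - q'.1) i') →
      ∃ n : ℤ, (gx K a (lo (K - q.1) i + 6) ≤ gx K a n ∧ gx K a n ≤ gx K a (hi (K - q.1) i - 6)) ∧
        (gx K a (lo (K - q'.1) i' + 6) ≤ gx K a n ∧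
          gx K a n ≤ gx K a (hi (K - q'.1) i' - 6)) := by
    intro a s i i' h1 h2 h3 h4
    have hg := gx_mono K a
    have e1 : lo (K - q.1) i < hi (K - q.1) i := lo_lt_hi _ _
    have e2 : lo (K - q'.1) i' < hi (K - q'.1) i' := lo_lt_hi _ _
    have e3 : lo (K - q.1) i < hi (K - q'.1) i' := hg.lt_iff_lt.1 (h1.trans h4)
    have e4 : lo (K - q'.1) i' < hi (K - q.1) i := hg.lt_iff_lt.1 (h3.trans h2)
    obtain ⟨A, hA⟩ := lo_eq27 (show 3 ≤ K - q.1 by omega) i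
    obtain ⟨B, hB⟩ := hi_eq27 (show 3 ≤ K - q.1 by omega) i
    obtain ⟨A', hA'⟩ := lo_eq27 (show 3 ≤ K - q'.1 by omega) i'
    obtain ⟨B', hB'⟩ := hi_eq27 (show 3 ≤ K - q'.1 by omega) i'
    rw [hA] at e1 e3 ⊢
    rw [hB] at e1 e4 ⊢
    rw [hA'] at e2 e4 ⊢
    rw [hB'] at e2 e3 ⊢
    refine ⟨max (27 * A) (27 * A') + 6, ⟨?_, ?_⟩, ?_, ?_⟩ <;> apply hg.monotone <;> omega
  obtain ⟨⟨a1, a2⟩, a3, a4⟩ := hz
  obtain ⟨⟨b1, b2⟩, b3, b4⟩ := hz'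
  obtain ⟨n, hn, hn'⟩ := key _ _ _ _ a1 a2 b1 b2
  obtain ⟨m, hm, hm'⟩ := key _ _ _ _ a3 a4 b3 b4
  exact ⟨⟨gx K o.re n, gx K o.im m⟩, ⟨hn, hm⟩, hn', hm'⟩

/-- a cell of level `K` inside a coarse cell meets its core -/
lemma cell_meets_core {o : ℂ} {K : ℕ} {q p : Cell} (hq : q.1 + 3 ≤ K) (hp : p.1 = K)
    (h : cfat o p ⊆ fat o q) : (fat o p ∩ core o K q).Nonempty := by
  have hp0 : p.1 ≤ K := hp.le
  have hq0 : q.1 ≤ K := by omega
  have m1 : (⟨gx K o.re (lo (K - p.1) p.2.1), gx K o.im (lo (K - p.1) p.2.2)⟩ : ℂ) ∈ cfat o p := by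
    rw [cfat_eq o hp0]
    exact ⟨⟨le_rfl, (gx_mono K _).monotone (lo_lt_hi _ _).le⟩, le_rfl,
      (gx_mono K _).monotone (lo_lt_hi _ _).le⟩
  have m2 : (⟨gx K o.re (hi (K - p.1) p.2.1), gx K o.im (hi (K - p.1) p.2.2)⟩ : ℂ) ∈ cfat o p := by
    rw [cfat_eq o hp0]
    exact ⟨⟨(gx_mono K _).monotone (lo_lt_hi _ _).le, le_rfl⟩,
      (gx_mono K _).monotone (lo_lt_hi _ _).le, le_rfl⟩
  have m1' := (fat_eq o hq0 _).1 (h m1)
  have m2' := (fat_eq o hq0 _).1 (h m2)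
  simp only at m1' m2'
  have key : ∀ (a : ℝ) (i j : ℤ), gx K a (lo (K - q.1) j) < gx K a (lo (K - p.1) i) →
      gx K a (hi (K - p.1) i) < gx K a (hi (K - q.1) j) →
      ∃ n : ℤ, (gx K a (lo (K - p.1) i) < gx K a n ∧ gx K a n < gx K a (hi (K - p.1) i)) ∧
        (gx K a (lo (K - q.1) j + 6) ≤ gx K a n ∧ gx K a n ≤ gx K a (hi (K - q.1) j - 6)) := by
    intro a i j h1 h2
    have hg := gx_mono K a
    rw [hg.lt_iff_lt] at h1 h2
    obtain ⟨A, hA⟩ := lo_eq27 (show 3 ≤ K - q.1 by omega) j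
    obtain ⟨B, hB⟩ := hi_eq27 (show 3 ≤ K - q.1 by omega) j
    have e1 : lo (K - p.1) i = 3 * i - 1 := by rw [hp, Nat.sub_self]; unfold lo; ring
    have e2 : hi (K - p.1) i = 3 * i + 4 := by rw [hp, Nat.sub_self]; unfold hi; ring
    rw [hA, e1] at h1
    rw [hB, e2] at h2
    rw [hA, hB, e1, e2]
    refine ⟨max (3 * i) (27 * A + 6), ⟨?_, ?_⟩, ?_, ?_⟩
    · apply hg; omega
    · apply hg; omega
    · apply hg.monotone; omega
    · apply hg.monotone; omega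
  obtain ⟨n, hn, hn'⟩ := key _ _ _ m1'.1.1 m2'.1.2
  obtain ⟨m, hm, hm'⟩ := key _ _ _ m1'.2.1 m2'.2.2
  refine ⟨⟨gx K o.re n, gx K o.im m⟩, ?_, hn', hm'⟩
  rw [fat_eq o hp0]
  exact ⟨hn, hm⟩

section

variable {D : Set ℂ} {δ : ℝ} {o : ℂ} {qb : Cell} {K : ℕ} {E : Finset (ℤ × ℤ)} {C : Finset Cell}

/-- The cells of level `K` inside the cells of the target are free. -/
lemma free_of_inside (hCD : ∀ q ∈ C, cfat o q ⊆ D) (hE : star (Vn δ o C) ⊆ E) (hδ : 0 < δ)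
    {q p : Cell} (hq : q ∈ C) (h : cfat o p ⊆ fat o q) : Free D δ o E p := by
  refine ⟨(h.trans (fat_sub_cfat o q)).trans (hCD q hq), fun e he => hE ?_⟩
  obtain ⟨v, hv, hev⟩ := mem_star.1 he
  rw [mem_verts hδ] at hv
  exact mem_star.2 ⟨v, mem_Vn.2 ⟨q, hq, (mem_verts hδ).2 (h (fat_sub_cfat o p hv))⟩, hev⟩

/-- **START**: the cells of level `K` inside the cells of the target are visible. -/
theorem start_mem (hD : Bornology.IsBounded D) (hδ : 0 < δ) (hlev : ∀ q ∈ C, q.1 + 3 ≤ K)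
    (hCD : ∀ q ∈ C, cfat o q ⊆ D) (hE : star (Vn δ o C) ⊆ E) (hqb : qb ∈ C)
    (hconn : ∀ q ∈ C, ∀ q' ∈ C,
      Relation.ReflTransGen (fun x y => AdjC o x y ∧ x ∈ C ∧ y ∈ C) q q')
    {q p : Cell} (hq : q ∈ C) (hp : p.1 = K) (h : cfat o p ⊆ fat o q) :
    p ∈ Uk D δ o qb K E := by
  set T : Set ℂ := ⋃ c ∈ (C : Set Cell), core o K c with hT
  have hne : ∀ c ∈ C, (core o K c).Nonempty := fun c hc => by
    have h1 : AdjC o c c := ⟨_, (center_fat o c), center_fat o c⟩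
    obtain ⟨z, hz, -⟩ := core_adj (hlev c hc) (hlev c hc) h1
    exact ⟨z, hz⟩
  have hTc : IsPreconnected T := by
    apply IsPreconnected.biUnion_of_reflTransGen
    · intro c _
      exact (convex_core o K c).isPreconnected
    · intro c hc c' hc'
      have h1 := hconn c hc c' hc'
      refine Relation.ReflTransGen.mono (fun x y hxy => ?_) _ _ h1
      exact ⟨core_adj (hlev x hxy.2.1) (hlev y hxy.2.2) hxy.1, hxy.2.1⟩
  have hF : ∀ p : Cell, p.1 = K → (fat o p ∩ T).Nonempty → Free D δ o E p := by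
    rintro p hp ⟨z, hzp, hzT⟩
    obtain ⟨c, hc, hzc⟩ := Set.mem_iUnion₂.1 hzT
    exact free_of_inside hCD hE hδ hc (core_cell (by have := hlev c hc; omega) hp hzc hzp)
  refine vis_all hD hTc hF ?_ p hp ?_
  · obtain ⟨z, hz⟩ := hne qb hqb
    obtain ⟨p0, hp0, hzp0⟩ := exists_fat o z K
    have hzT : z ∈ T := Set.mem_iUnion₂.2 ⟨qb, hqb, hz⟩
    have h1 := core_cell (by have := hlev qb hqb; omega) hp0 hz hzp0
    refine ⟨p0, ?_, z, hzp0, hzT⟩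
    rw [mem_Uk hD]
    exact ConnC.single hp0 (hF p0 hp0 ⟨z, hzp0, hzT⟩)
      ⟨z, hzp0, h1 (fat_sub_cfat o p0 hzp0)⟩
  · obtain ⟨z, hz, hzc⟩ := cell_meets_core (hlev q hq) hp h
    exact ⟨z, hz, Set.mem_iUnion₂.2 ⟨q, hq, hzc⟩⟩

/-- **START, next cells** -/
theorem start_next (hD : Bornology.IsBounded D) {p p' : Cell} (hp : p.1 = K)
    (hF : Free D δ o E p) (h : AdjC o p p') (hp' : p' ∈ Uk D δ o qb K E) :
    p ∈ Uk D δ o qb K E := by
  rw [mem_Uk hD] at hp' ⊢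
  exact ConnC.cons hp hF h hp'

end

end Pool.Agent.H53.Q1
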