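import Mathlib
import Pool.Agent.H53.Q1.J20.Vis

set_option autoImplicit false
open Finset Filter Topology

/-! # M7, J20 (c): the regions of the steps decrease

`R_mono`, `Om_R_mono` : the regions decrease when the set of free labels decreases. `box_subset_R` : a
preconnected set near the target (the half box) is in the region if it meets no unit cell of the
target. -/

namespace Pool.Agent.H53.Q1

open Pool.Agent.Q1.M3 Pool.Agent.Q1.M3.Pg
open Pool.Agent.Q1.M4 (Adj4 Conn4 rect Reg Om mem_Om mem_rect Om_subset)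
open Pool.Agent.H81.Q1 (pt)
open Pool.Agent.H42.Q1 (isOpen_fat dist_cfat exists_fat fat_sub_cfat AdjC.symm)

section

variable {D : Set ℂ} {δ : ℝ} {o : ℂ} {qb : Cell} {K : ℕ} {E E' : Finset (ℤ × ℤ)}
  {C : Finset Cell} {BB : Cell}

lemma Uk_mono (hD : Bornology.IsBounded D) (h : E' ⊆ E) :
    Uk D δ o qb K E' ⊆ Uk D δ o qb K E := by
  intro q hq
  rw [mem_Uk hD] at hq ⊢
  exact hq.mono fun x hx => hx.mono h

lemma PP_mono {U U' : Finset Cell} (h : U' ⊆ U) : PP K U' C ⊆ PP K U C :=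
  fill_mono (flat_mono (union_subset_union_left h))

lemma sdiff_mono' {U U' : Finset Cell} (h : U' ⊆ U) :
    PP K U' C \ HH K U' C BB ⊆ PP K U C \ HH K U C BB := by
  intro c hc
  rw [Finset.mem_sdiff] at hc ⊢
  have h1 := PP_mono (C := C) (K := K) h hc.1
  refine ⟨h1, fun h2 => hc.2 ?_⟩
  rcases mem_union.1 h2 with h3 | h3
  · exact mem_union_left _ h3
  · exact mem_union_right _ (mem_inter.2 ⟨(mem_inter.1 h3).1, hc.1⟩)

lemma comp_mono {A A' : Finset (ℤ × ℤ)} (h : A' ⊆ A) (c : ℤ × ℤ) : comp A' c ⊆ comp A c := by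
  intro d hd
  rw [mem_comp] at hd ⊢
  exact ⟨h hd.1, J4.mono (by exact_mod_cast h) hd.2⟩

lemma Om_mono {Q Q' : Finset (ℤ × ℤ)} (h : Q' ⊆ Q) (x y : ℤ → ℝ) : Om Q' x y ⊆ Om Q x y :=
  interior_mono fun _ ⟨c, hc, hz⟩ => ⟨c, h hc, hz⟩

/-- **The regions of the steps decrease.** -/
theorem R_mono (hD : Bornology.IsBounded D) (hE : E' ⊆ E) {b0 b0' h0 : ℤ × ℤ}
    {s s' : (ℤ × ℤ) × ℤ}
    (hs : s.1 ∈ (SD.mk K (Uk D δ o qb K E) C BB b0 s).P \ (SD.mk K (Uk D δ o qb K E) C BB b0 s).H2)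
    (hs' : s'.1 ∈ (SD.mk K (Uk D δ o qb K E') C BB b0' s').P \
      (SD.mk K (Uk D δ o qb K E') C BB b0' s').H2)
    (h1 : h0 ∈ (SD.mk K (Uk D δ o qb K E) C BB b0 s).R)
    (h2 : h0 ∈ (SD.mk K (Uk D δ o qb K E') C BB b0' s').R) :
    (SD.mk K (Uk D δ o qb K E') C BB b0' s').R ⊆ (SD.mk K (Uk D δ o qb K E) C BB b0 s).R := by
  have e1 : comp (PP K (Uk D δ o qb K E) C \ HH K (Uk D δ o qb K E) C BB) h0 =
      (SD.mk K (Uk D δ o qb K E) C BB b0 s).R := comp_eq hs h1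
  have e2 : comp (PP K (Uk D δ o qb K E') C \ HH K (Uk D δ o qb K E') C BB) h0 =
      (SD.mk K (Uk D δ o qb K E') C BB b0' s').R := comp_eq hs' h2
  rw [← e1, ← e2]
  exact comp_mono (sdiff_mono' (Uk_mono hD hE)) h0

theorem Om_R_mono (hD : Bornology.IsBounded D) (hE : E' ⊆ E) {b0 b0' h0 : ℤ × ℤ}
    {s s' : (ℤ × ℤ) × ℤ}
    (hs : s.1 ∈ (SD.mk K (Uk D δ o qb K E) C BB b0 s).P \ (SD.mk K (Uk D δ o qb K E) C BB b0 s).H2)
    (hs' : s'.1 ∈ (SD.mk K (Uk D δ o qb K E') C BB b0' s').P \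
      (SD.mk K (Uk D δ o qb K E') C BB b0' s').H2)
    (h1 : h0 ∈ (SD.mk K (Uk D δ o qb K E) C BB b0 s).R)
    (h2 : h0 ∈ (SD.mk K (Uk D δ o qb K E') C BB b0' s').R) (x y : ℤ → ℝ) :
    Om (SD.mk K (Uk D δ o qb K E') C BB b0' s').R x y ⊆
      Om (SD.mk K (Uk D δ o qb K E) C BB b0 s).R x y :=
  Om_mono (R_mono hD hE hs hs' h1 h2) x y

variable {T : Set ℂ}

/-- A preconnected set far from the explored vertices which meets no unit cell of the target is in one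
component. -/
theorem near_subset (hD : Bornology.IsBounded D) {ε : ℝ} (hδ : 0 < δ) (hε : 4 * mesh K < ε)
    (hT : IsPreconnected T) (h1 : ∀ z ∈ T, Metric.ball z ε ⊆ D)
    (h2 : ∀ z ∈ T, ∀ v : ℤ × ℤ, dist (pt δ v) z < ε → star1 v ⊆ E)
    (h3 : ∀ c, (rect (gx K o.re) (gx K o.im) c ∩ T).Nonempty → c ∉ flat K C ∧ c ∉ fc K BB)
    (h4 : ∃ q ∈ Uk D δ o qb K E, (fat o q ∩ T).Nonempty) {c : ℤ × ℤ}
    (hc : (rect (gx K o.re) (gx K o.im) c ∩ T).Nonempty) :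
    T ⊆ Om (comp (PP K (Uk D δ o qb K E) C \ HH K (Uk D δ o qb K E) C BB) c)
      (gx K o.re) (gx K o.im) := by
  refine subset_Om_comp (gx_mono K o.re) (gx_mono K o.im) hT (fun c' hc' => ?_) hc
  have h5 := h3 c' hc'
  obtain ⟨z, hz, hzT⟩ := hc'
  have hU : cellOf K c' ∈ Uk D δ o qb K E :=
    conn_cells hD hδ hε hT h1 h2 h4 _ rfl ⟨z, rect_sub_fat K o c' hz, hzT⟩
  rw [Finset.mem_sdiff]
  refine ⟨flat_sub_PP (F := Uk D δ o qb K E) subset_union_left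
    (fc_subset_flat hU (mem_fc_cellOf K c')), fun h => ?_⟩
  rcases mem_union.1 h with h | h
  · exact h5.1 h
  · exact h5.2 (mem_inter.1 h).1

/-- The same for the data of a step: the half box is in the region. -/
theorem near_subset_R (hD : Bornology.IsBounded D) {ε : ℝ} (hδ : 0 < δ) (hε : 4 * mesh K < ε)
    (hT : IsPreconnected T) (h1 : ∀ z ∈ T, Metric.ball z ε ⊆ D)
    (h2 : ∀ z ∈ T, ∀ v : ℤ × ℤ, dist (pt δ v) z < ε → star1 v ⊆ E)
    (h3 : ∀ c, (rect (gx K o.re) (gx K o.im) c ∩ T).Nonempty → c ∉ flat K C ∧ c ∉ fc K BB)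
    (h4 : ∃ q ∈ Uk D δ o qb K E, (fat o q ∩ T).Nonempty) {b0 : ℤ × ℤ} {s : (ℤ × ℤ) × ℤ}
    (hs : s.1 ∈ (SD.mk K (Uk D δ o qb K E) C BB b0 s).P \ (SD.mk K (Uk D δ o qb K E) C BB b0 s).H2)
    {c : ℤ × ℤ} (hc : (rect (gx K o.re) (gx K o.im) c ∩ T).Nonempty)
    (hcR : c ∈ (SD.mk K (Uk D δ o qb K E) C BB b0 s).R) :
    T ⊆ Om (SD.mk K (Uk D δ o qb K E) C BB b0 s).R (gx K o.re) (gx K o.im) := by
  have h := near_subset hD hδ hε hT h1 h2 h3 h4 hc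
  have e : comp (PP K (Uk D δ o qb K E) C \ HH K (Uk D δ o qb K E) C BB) c =
      (SD.mk K (Uk D δ o qb K E) C BB b0 s).R := comp_eq hs hcR
  rwa [e] at h

end

end Pool.Agent.H53.Q1
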