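import Mathlib
import Pool.Agent.H53.Q1.J20.Mono
import Pool.Agent.H28.Q1.InvD
import Pool.Agent.Q1.M3.Count

set_option autoImplicit false
open Finset Filter Topology

/-! # M7, J20 (c): explored vertices and tips are not in the regions

A vertex is *not free* if one of its labels is not free. `toInf_state` : in every state of the
exploration of a discrete domain the vertices which are not free are joined to infinity by such
vertices. `nf_box` : so their boxes are not in the filled union of the visible cells. `nf_notMem_Om` :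
the points of these vertices are not in the open region of a step. -/

namespace Pool.Agent.H53.Q1

open Pool.Agent.H75.Perc Pool.Agent.H75.TwoArm Pool.Agent.H75.Four Pool.Agent.H69.Q1
open Pool.Agent.H99.NC
open Pool.Agent.Q1.M3 Pool.Agent.Q1.M3.Pg
open Pool.Agent.Q1.M4 (Adj4 Conn4 rect Reg Om mem_Om mem_rect Om_subset)
open Pool.Agent.H81.Q1 (pt DDomain Approx Z2 Corner IsOuter faceStep edges next)

/-! ### Vertices which are not free -/

/-- one of the labels at `v` is not in `E` -/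
def NF (E : Finset (ℤ × ℤ)) (v : ℤ × ℤ) : Prop := ¬ star1 v ⊆ E

/-- `v` is joined to `w` by vertices which are not free -/
def NJ (E : Finset (ℤ × ℤ)) (v w : ℤ × ℤ) : Prop :=
  Relation.ReflTransGen (fun a b => b - a ∈ dirs ∧ NF E b) v w

/-- `v` is joined to infinity by vertices which are not free -/
def ToInf (E : Finset (ℤ × ℤ)) (v : ℤ × ℤ) : Prop := ∀ n : ℤ, ∃ w, NJ E v w ∧ n ≤ |w.1| + |w.2|

variable {E E' : Finset (ℤ × ℤ)} {v w p q : ℤ × ℤ}

lemma NF.mono (h : E' ⊆ E) (hv : NF E v) : NF E' v := fun h1 => hv (h1.trans h)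

lemma NJ.mono (h : E' ⊆ E) (hv : NJ E v w) : NJ E' v w :=
  Relation.ReflTransGen.mono (fun _ _ hab => ⟨hab.1, hab.2.mono h⟩) _ _ hv

lemma ToInf.mono (h : E' ⊆ E) (hv : ToInf E v) : ToInf E' v := fun n => by
  obtain ⟨w, h1, h2⟩ := hv n
  exact ⟨w, h1.mono h, h2⟩

lemma ToInf.of_nj (h : NJ E v w) (hw : ToInf E w) : ToInf E v := fun n => by
  obtain ⟨u, h1, h2⟩ := hw n
  exact ⟨u, h.trans h1, h2⟩

lemma mem_dirs_iff {d : ℤ × ℤ} : d ∈ dirs ↔ (d.1 = 1 ∧ d.2 = 0) ∨ (d.1 = 0 ∧ d.2 = 1) ∨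
    (d.1 = -1 ∧ d.2 = 0) ∨ (d.1 = 0 ∧ d.2 = -1) := by
  obtain ⟨x, y⟩ := d
  unfold dirs
  simp only [mem_insert, mem_singleton, Prod.mk.injEq]

lemma NJ.single (h : w - v ∈ dirs) (hw : NF E w) : NJ E v w := Relation.ReflTransGen.single ⟨h, hw⟩

/-- two ends of one edge -/
lemma NJ.of_star1 {e : ℤ × ℤ} (hv : e ∈ star1 v) (hw : e ∈ star1 w) (hE : e ∉ E) : NJ E v w := by
  by_cases h : v = w
  · rw [h]; exact Relation.ReflTransGen.refl
  · exact NJ.single (star1_pair hv hw h).2.1 fun h1 => hE (h1 hw)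

/-- `v` is a vertex of the face with lower left vertex `f` -/
def FV (f v : ℤ × ℤ) : Prop := (v.1 = f.1 ∨ v.1 = f.1 + 1) ∧ (v.2 = f.2 ∨ v.2 = f.2 + 1)

lemma adj_face {f : ℤ × ℤ} (hp : FV f p) (hq : FV f q) (hv : FV f v) (hpq : q - p ∈ dirs) :
    p = v ∨ q = v ∨ p - v ∈ dirs ∨ q - v ∈ dirs := by
  obtain ⟨p1, p2⟩ := p
  obtain ⟨q1, q2⟩ := q
  obtain ⟨v1, v2⟩ := v
  obtain ⟨f1, f2⟩ := f
  unfold FV at hp hq hv
  simp only at hp hq hv
  rw [mem_dirs_iff] at hpq ⊢
  rw [mem_dirs_iff]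
  rcases hp with ⟨rfl | rfl, rfl | rfl⟩ <;> rcases hq with ⟨rfl | rfl, rfl | rfl⟩ <;>
    rcases hv with ⟨rfl | rfl, rfl | rfl⟩ <;> simp at hpq ⊢

/-! ### The discrete domain -/

section

variable (X : DDomain)

lemma edge_mem_Z2 (h : q - p ∈ dirs) : s(p, q) ∈ Z2.edgeSet := by
  rw [SimpleGraph.mem_edgeSet]
  change |p.1 - q.1| + |p.2 - q.2| = 1
  obtain ⟨x, y⟩ := p
  obtain ⟨x', y'⟩ := q
  rw [mem_dirs_iff] at h
  simp only [Prod.mk_sub_mk] at h ⊢
  rcases h with ⟨h6, h7⟩ | ⟨h6, h7⟩ | ⟨h6, h7⟩ | ⟨h6, h7⟩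
  · rw [show x - x' = -1 by omega, show y - y' = 0 by omega]; rfl
  · rw [show x - x' = 0 by omega, show y - y' = -1 by omega]; rfl
  · rw [show x - x' = 1 by omega, show y - y' = 0 by omega]; rfl
  · rw [show x - x' = 0 by omega, show y - y' = 1 by omega]; rfl

lemma label_notMem (h : q - p ∈ dirs) (hne : s(p, q) ∉ X.free) : p + q ∉ X.toDEnv.E := by
  rw [Pool.Agent.H81.Q1.toDEnv_E, mem_EL]
  rintro ⟨e, he, h1⟩
  have h2 : e = s(p, q) := lb_injOn (Pool.Agent.H81.Q1.subZ2 X (X.free_sub he))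
    (edge_mem_Z2 h) (by rw [h1, lb_mk])
  exact hne (h2 ▸ he)

lemma label_star1 (h : q - p ∈ dirs) : p + q ∈ star1 p ∧ p + q ∈ star1 q := by
  have := add_dir_star1 (v := p) h
  rwa [add_sub_cancel] at this

lemma nf_of_notMem (h : q - p ∈ dirs) (hne : s(p, q) ∉ X.E) :
    NF X.toDEnv.E p ∧ NF X.toDEnv.E q := by
  have h1 := label_notMem X h (fun h2 => hne (X.free_sub h2))
  obtain ⟨h2, h3⟩ := label_star1 h
  exact ⟨fun h4 => h1 (h4 h2), fun h4 => h1 (h4 h3)⟩

/-- A step between faces. -/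
lemma face_step {f g : ℤ × ℤ} (h : faceStep X.E f g) (hv : FV f v) :
    ∃ w, FV g w ∧ NJ X.toDEnv.E v w := by
  have key : ∀ p q : ℤ × ℤ, q - p ∈ dirs → s(p, q) ∉ X.E → FV f p → FV f q → FV g p → FV g q →
      ∃ w, FV g w ∧ NJ X.toDEnv.E v w := by
    intro p q hpq hE hfp hfq hgp hgq
    obtain ⟨n1, n2⟩ := nf_of_notMem X hpq hE
    rcases adj_face hfp hfq hv hpq with h1 | h1 | h1 | h1
    · exact ⟨p, hgp, by rw [h1]; exact Relation.ReflTransGen.refl⟩
    · exact ⟨q, hgq, by rw [h1]; exact Relation.ReflTransGen.refl⟩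
    · exact ⟨p, hgp, NJ.single h1 n1⟩
    · exact ⟨q, hgq, NJ.single h1 n2⟩
  obtain ⟨f1, f2⟩ := f
  rcases h with ⟨rfl, h2⟩ | ⟨rfl, h2⟩ | ⟨rfl, h2⟩ | ⟨rfl, h2⟩
  · refine key _ _ ?_ h2 ?_ ?_ ?_ ?_ <;> simp [mem_dirs_iff, FV]
  · refine key _ _ ?_ h2 ?_ ?_ ?_ ?_ <;> simp [mem_dirs_iff, FV]
  · refine key _ _ ?_ h2 ?_ ?_ ?_ ?_ <;> simp [mem_dirs_iff, FV]
  · refine key _ _ ?_ h2 ?_ ?_ ?_ ?_ <;> simp [mem_dirs_iff, FV]

lemma face_path {f g : ℤ × ℤ} (h : Relation.ReflTransGen (faceStep X.E) f g) (hv : FV f v) :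
    ∃ w, FV g w ∧ NJ X.toDEnv.E v w := by
  induction h with
  | refl => exact ⟨v, hv, Relation.ReflTransGen.refl⟩
  | tail _ h ih =>
    obtain ⟨w, h1, h2⟩ := ih
    obtain ⟨u, h3, h4⟩ := face_step X h h1
    exact ⟨u, h3, h2.trans h4⟩

lemma toInf_outer {c : Corner} (h : IsOuter X.E c) (hv : FV c.face v) : ToInf X.toDEnv.E v := by
  intro n
  obtain ⟨g, h1, h2⟩ := h (n + 2)
  obtain ⟨w, h3, h4⟩ := face_path X h1 hv
  refine ⟨w, h4, ?_⟩
  obtain ⟨h5, h6⟩ := h3
  have e1 : |g.1| ≤ |w.1| + 1 := by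
    rcases h5 with h | h <;> rw [h]
    · linarith
    · have := abs_sub_abs_le_abs_sub g.1 (g.1 + 1)
      simp at this
      linarith
  have e2 : |g.2| ≤ |w.2| + 1 := by
    rcases h6 with h | h <;> rw [h]
    · linarith
    · have := abs_sub_abs_le_abs_sub g.2 (g.2 + 1)
      simp at this
      linarith
  linarith

lemma dir_0 : Pool.Agent.H81.Q1.dir 0 = (1, 0) := rfl
lemma dir_1 : Pool.Agent.H81.Q1.dir 1 = (0, 1) := rfl
lemma dir_2 : Pool.Agent.H81.Q1.dir 2 = (-1, 0) := rfl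
lemma dir_3 : Pool.Agent.H81.Q1.dir 3 = (0, -1) := rfl
lemma face_0 (x y : ℤ) : Corner.face ((x, y), 0) = (x, y) := rfl
lemma face_1 (x y : ℤ) : Corner.face ((x, y), 1) = (x - 1, y) := rfl
lemma face_2 (x y : ℤ) : Corner.face ((x, y), 2) = (x - 1, y - 1) := rfl
lemma face_3 (x y : ℤ) : Corner.face ((x, y), 3) = (x, y - 1) := rfl

lemma fv_corner (c : Corner) : FV c.face c.1 ∧ FV c.face (c.1 + Pool.Agent.H81.Q1.dir c.2) := by
  obtain ⟨⟨x, y⟩, k⟩ := c
  rcases q_cases k with rfl | rfl | rfl | rfl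
  · rw [face_0, dir_0]; simp [FV]
  · rw [face_1, dir_1]; simp [FV]
  · rw [face_2, dir_2]; simp [FV, sub_eq_add_neg]
  · rw [face_3, dir_3]; simp [FV, sub_eq_add_neg]

lemma outer_next {c : Corner} (h : IsOuter X.E c) : IsOuter X.E (next X.E c) := by
  unfold next
  by_cases hc : c.edge ∈ X.E
  · rw [if_pos hc]
    have e : Corner.face (c.1 + Pool.Agent.H81.Q1.dir c.2, c.2 + 1) = c.face := by
      obtain ⟨⟨x, y⟩, k⟩ := c
      simp only
      rcases q_cases k with rfl | rfl | rfl | rfl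
      · rw [dir_0, show (0 + 1 : ZMod 4) = 1 from rfl, Prod.mk_add_mk, face_1, face_0]
        ext <;> simp
      · rw [dir_1, show (1 + 1 : ZMod 4) = 2 from rfl, Prod.mk_add_mk, face_2, face_1]
        ext <;> simp
      · rw [dir_2, show (2 + 1 : ZMod 4) = 3 from rfl, Prod.mk_add_mk, face_3, face_2]
        ext <;> simp; ring
      · rw [dir_3, show (3 + 1 : ZMod 4) = 0 from rfl, Prod.mk_add_mk, face_0, face_3]
        ext <;> simp; ring
    intro n
    rw [e]
    exact h n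
  · rw [if_neg hc]
    have e : faceStep X.E (Corner.face (c.1, c.2 - 1)) c.face := by
      obtain ⟨⟨x, y⟩, k⟩ := c
      unfold Corner.edge at hc
      simp only at hc ⊢
      unfold faceStep
      rcases q_cases k with rfl | rfl | rfl | rfl
      · rw [dir_0, Prod.mk_add_mk] at hc
        rw [show (0 - 1 : ZMod 4) = 3 from rfl, face_3, face_0]
        refine Or.inr (Or.inr (Or.inl ⟨by simp, ?_⟩))
        simp only [sub_add_cancel]
        rwa [add_zero] at hc
      · rw [dir_1, Prod.mk_add_mk] at hc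
        rw [show (1 - 1 : ZMod 4) = 0 from rfl, face_0, face_1]
        refine Or.inr (Or.inl ⟨by simp, ?_⟩)
        rwa [add_zero] at hc
      · rw [dir_2, Prod.mk_add_mk] at hc
        rw [show (2 - 1 : ZMod 4) = 1 from rfl, face_1, face_2]
        refine Or.inr (Or.inr (Or.inr ⟨by simp, ?_⟩))
        simp only [sub_add_cancel]
        rw [add_zero, Sym2.eq_swap] at hc
        exact hc
      · rw [dir_3, Prod.mk_add_mk] at hc
        rw [show (3 - 1 : ZMod 4) = 2 from rfl, face_2, face_3]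
        refine Or.inl ⟨by simp, ?_⟩
        simp only [sub_add_cancel]
        rw [add_zero, Sym2.eq_swap] at hc
        exact hc
    intro n
    obtain ⟨g, h1, h2⟩ := h n
    exact ⟨g, Relation.ReflTransGen.head e h1, h2⟩

lemma outer_wired {c : Corner} (h : c ∈ X.wired) : IsOuter X.E c := by
  obtain ⟨i, -, rfl⟩ := h
  induction i with
  | zero => exact X.outβ
  | succ i ih => rw [Function.iterate_succ_apply']; exact outer_next X ih

/-- a vertex with a missing edge, inside the domain -/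
lemma toInf_of_edge (hv : v ∈ X.V) (h : w - v ∈ dirs) (hE : s(v, w) ∉ X.E) :
    ToInf X.toDEnv.E v := by
  have hq : ∃ k : ZMod 4, v + Pool.Agent.H81.Q1.dir k = w := by
    obtain ⟨x, y⟩ := v
    obtain ⟨x', y'⟩ := w
    rw [mem_dirs_iff] at h
    simp only [Prod.mk_sub_mk] at h
    rcases h with ⟨h1, h2⟩ | ⟨h1, h2⟩ | ⟨h1, h2⟩ | ⟨h1, h2⟩
    · exact ⟨0, by rw [dir_0]; ext <;> simp <;> omega⟩
    · exact ⟨1, by rw [dir_1]; ext <;> simp <;> omega⟩
    · exact ⟨2, by rw [dir_2]; ext <;> simp <;> omega⟩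
    · exact ⟨3, by rw [dir_3]; ext <;> simp <;> omega⟩
  obtain ⟨k, hk⟩ := hq
  have h1 : IsOuter X.E (v, k) := X.noHole (v, k) hv (by
    unfold Corner.edge
    simp only
    rw [hk]; exact hE)
  exact toInf_outer X h1 (fv_corner (v, k)).1

/-- vertices outside the domain are not free -/
lemma nf_of_notMem_V (hv : v ∉ X.V) (h : w - v ∈ dirs) : NF X.toDEnv.E v ∧ NF X.toDEnv.E w :=
  nf_of_notMem X h fun h1 => hv ((X.subE h1).2 v (Sym2.mem_mk_left v w))

lemma toInf_of_mem (hv : v ∈ X.V) (h : NF X.toDEnv.E v) : ToInf X.toDEnv.E v := by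
  obtain ⟨e, he, h1⟩ := Finset.not_subset.1 h
  -- the other end
  obtain ⟨w, hw, hew⟩ : ∃ w, w - v ∈ dirs ∧ e = v + w := by
    obtain ⟨x, y⟩ := v
    unfold star1 at he
    simp only [mem_insert, mem_singleton] at he
    rcases he with rfl | rfl | rfl | rfl
    · exact ⟨(x + 1, y), by rw [mem_dirs_iff]; simp, by ext <;> simp <;> ring⟩
    · exact ⟨(x - 1, y), by rw [mem_dirs_iff]; simp, by ext <;> simp <;> ring⟩
    · exact ⟨(x, y + 1), by rw [mem_dirs_iff]; simp, by ext <;> simp <;> ring⟩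
    · exact ⟨(x, y - 1), by rw [mem_dirs_iff]; simp, by ext <;> simp <;> ring⟩
  by_cases hE : s(v, w) ∈ X.E
  · have harc : s(v, w) ∈ X.arc := by
      by_contra hc
      apply h1
      rw [Pool.Agent.H81.Q1.toDEnv_E, mem_EL]
      exact ⟨s(v, w), ⟨hE, hc⟩, by rw [lb_mk, hew]⟩
    obtain ⟨-, c, hc, -, h3⟩ := harc
    have h4 : v ∈ c.edge := by rw [← h3]; exact Sym2.mem_mk_left v w
    refine toInf_outer X (outer_wired X hc) ?_
    rcases Sym2.mem_iff.1 h4 with h5 | h5
    · rw [h5]; exact (fv_corner c).1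
    · rw [h5]; exact (fv_corner c).2
  · exact toInf_of_edge X hv hw hE

/-- a horizontal line of vertices which are not free -/
lemma nj_line (v : ℤ × ℤ) (k : ℕ) (h : ∀ j : ℕ, 0 < j → j ≤ k → NF E (v + ((j : ℤ), 0))) :
    NJ E v (v + ((k : ℤ), 0)) := by
  induction k with
  | zero => simp only [Nat.cast_zero]; rw [Prod.mk_zero_zero, add_zero]; exact Relation.ReflTransGen.refl
  | succ k ih =>
    refine Relation.ReflTransGen.tail (ih fun j h1 h2 => h j h1 (by omega)) ⟨?_, h (k + 1)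
      (by omega) le_rfl⟩
    rw [mem_dirs_iff]
    left
    simp

/-- **Vertices which are not free are joined to infinity.** -/
theorem toInf_init (h : NF X.toDEnv.E v) : ToInf X.toDEnv.E v := by
  classical
  by_cases hv : v ∈ X.V
  · exact toInf_of_mem X hv h
  by_cases hex : ∃ k : ℕ, v + ((k : ℤ), 0) ∈ X.V
  · have h1 := Nat.find_spec hex
    set k := Nat.find hex with hk
    have hk0 : k ≠ 0 := by
      intro h2
      rw [h2] at h1
      simp only [Nat.cast_zero] at h1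
      rw [Prod.mk_zero_zero, add_zero] at h1
      exact hv h1
    have hmin : ∀ j < k, v + ((j : ℤ), 0) ∉ X.V := fun j hj => Nat.find_min hex hj
    have hnf : ∀ j : ℕ, j ≤ k → NF X.toDEnv.E (v + ((j : ℤ), 0)) := by
      intro j hj
      rcases hj.lt_or_eq with hj | hj
      · exact (nf_of_notMem_V X (hmin j hj) (w := v + ((j : ℤ), 0) + (1, 0)) (by
          rw [mem_dirs_iff]; simp)).1
      · obtain ⟨i, hi⟩ := Nat.exists_eq_succ_of_ne_zero hk0
        have h2 := (nf_of_notMem_V X (hmin i (by omega)) (w := v + ((j : ℤ), 0)) (by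
          rw [mem_dirs_iff]
          left
          rw [hj, hi]
          simp)).2
        exact h2
    refine ToInf.of_nj (nj_line v k fun j _ hj => hnf j hj) ?_
    exact toInf_of_mem X h1 (hnf k le_rfl)
  · push Not at hex
    intro n
    refine ⟨v + (((n.natAbs + v.1.natAbs : ℕ) : ℤ), 0), nj_line v _ fun j _ _ => ?_, ?_⟩
    · exact (nf_of_notMem_V X (hex j) (w := v + ((j : ℤ), 0) + (1, 0)) (by
          rw [mem_dirs_iff]; simp)).1
    · simp only [Prod.fst_add, Prod.snd_add]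
      push_cast
      have e1 := le_abs_self (v.1 + (|n| + |v.1|))
      have e2 := abs_nonneg (v.2 + 0)
      have e3 := le_abs_self n
      have e4 := neg_abs_le v.1
      linarith

/-! ### The states of the exploration -/

variable {ω : Finset (ℤ × ℤ)} {t : ℕ}

/-- the free labels at time `t` -/
noncomputable def Et (X : DEnv) (ω : Finset (ℤ × ℤ)) (t : ℕ) : Finset (ℤ × ℤ) :=
  X.E \ Rules.metE X ω t

lemma Et_sub (X : DEnv) (ω : Finset (ℤ × ℤ)) (t : ℕ) : Et X ω t ⊆ X.E := Finset.sdiff_subset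

lemma plab_notMem_Et (X : DEnv) {i : ℕ} (hi : i < t) : plab (X.cor ω i) ∉ Et X ω t := by
  intro h
  unfold Et at h
  rw [Finset.mem_sdiff, Rules.mem_metE] at h
  exact h.2 ⟨h.1, i, hi, rfl⟩

/-- the vertices of the path are joined to the start -/
lemma nj_path (X : DEnv) (ω : Finset (ℤ × ℤ)) {i : ℕ} (hi : i ≤ t) :
    NJ (Et X ω t) (vx (X.cor ω i)) (vx X.α) := by
  induction i with
  | zero => exact Relation.ReflTransGen.refl
  | succ i ih =>
    have h1 : plab (X.cor ω i) ∈ star1 (vx (X.cor ω (i + 1))) := by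
      rw [X.cor_succ]; exact plab_star1_pv _ _
    exact (NJ.of_star1 h1 (plab_star1 _) (plab_notMem_Et X (by omega))).trans (ih (by omega))

/-- **Vertices which are not free in a state are joined to infinity.** -/
theorem toInf_state (h : NF (Et X.toDEnv ω t) v) : ToInf (Et X.toDEnv ω t) v := by
  by_cases h1 : NF X.toDEnv.E v
  · exact (toInf_init X h1).mono (Et_sub _ _ _)
  · unfold NF at h1
    push Not at h1
    obtain ⟨e, he, h2⟩ := Finset.not_subset.1 h
    have h3 : e ∈ Rules.metE X.toDEnv ω t := by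
      by_contra h4
      exact h2 (Finset.mem_sdiff.2 ⟨h1 he, h4⟩)
    obtain ⟨-, k, hk, rfl⟩ := Rules.mem_metE.1 h3
    refine ToInf.of_nj ((NJ.of_star1 he (plab_star1 _) (plab_notMem_Et _ hk)).trans
      (nj_path _ ω hk.le)) ?_
    refine ToInf.mono (Et_sub _ _ _) ?_
    have h5 : vx X.toDEnv.α = X.α.1 := by
      rw [Pool.Agent.H81.Q1.toDEnv_α, vx_cor]
    rw [h5]
    exact toInf_outer X X.outα (fv_corner X.α).1

/-- **The tip is not free.** -/
theorem nf_tip : NF (Et X.toDEnv ω t) (vx (X.toDEnv.cor ω t)) := by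
  cases t with
  | zero =>
    obtain ⟨m, hm, h1, -, h2, -⟩ := (Pool.Agent.H28.Q1.inv_toDEnv X).back
    have h3 := h2 (m - 1) (by omega)
    have h4 : plab ((pv X.toDEnv.W)^[m - 1] X.toDEnv.β) = lab X.toDEnv.α := by
      rw [← h1, show m = (m - 1) + 1 by omega, Function.iterate_succ_apply', lab_pv]
      simp
    rw [h4] at h3
    refine NF.mono (Et_sub _ _ _) fun h5 => h3 (h5 ?_)
    exact lab_star1 _
  | succ t =>
    intro h
    refine plab_notMem_Et X.toDEnv (ω := ω) (t := t + 1) (i := t) (by omega) (h ?_)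
    rw [X.toDEnv.cor_succ]
    exact plab_star1_pv _ _

end

/-! ### Boxes -/

section

variable {K : ℕ} {o : ℂ} {δ : ℝ}

lemma adj4_symm' {c d : ℤ × ℤ} (h : Adj4 c d) : Adj4 d c := adj4_symm h

/-- Neighbouring vertices are in the same box or in neighbouring boxes. -/
lemma box_step (hδ : 0 < δ) (hm : 3 * δ ≤ mesh (K + 1)) (hg : Gen2 K o δ) (h : w - v ∈ dirs) :
    box δ o K w = box δ o K v ∨ Adj4 (box δ o K w) (box δ o K v) := by
  obtain ⟨x, y⟩ := v
  obtain ⟨x', y'⟩ := w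
  rw [mem_dirs_iff] at h
  simp only [Prod.mk_sub_mk] at h
  rw [box_eq, box_eq]
  simp only
  rcases h with ⟨h1, h2⟩ | ⟨h1, h2⟩ | ⟨h1, h2⟩ | ⟨h1, h2⟩
  · have e1 : x' = x + 1 := by omega
    have e2 : y' = y := by omega
    subst e1 e2
    rcases col_succ hδ hm hg.1 x with h3 | h3
    · left; rw [h3]
    · right
      rw [h3]
      have := adj_left (col K o.re δ x + 1) (col K o.im δ y')
      rwa [add_sub_cancel_right] at this
  · have e1 : x' = x := by omega
    have e2 : y' = y + 1 := by omega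
    subst e1 e2
    rcases col_succ hδ hm hg.2 y with h3 | h3
    · left; rw [h3]
    · right
      rw [h3]
      have := adj_down (col K o.re δ x') (col K o.im δ y + 1)
      rwa [add_sub_cancel_right] at this
  · have e1 : x = x' + 1 := by omega
    have e2 : y = y' := by omega
    subst e1 e2
    rcases col_succ hδ hm hg.1 x' with h3 | h3
    · left; rw [h3]
    · right
      rw [h3]
      have := adj_right (col K o.re δ x' + 1) (col K o.im δ y)
      rwa [add_sub_cancel_right] at this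
  · have e1 : x = x' := by omega
    have e2 : y = y' + 1 := by omega
    subst e1 e2
    rcases col_succ hδ hm hg.2 y' with h3 | h3
    · left; rw [h3]
    · right
      rw [h3]
      have := adj_up (col K o.re δ x) (col K o.im δ y' + 1)
      rwa [add_sub_cancel_right] at this

/-- Far vertices have far boxes. -/
lemma exists_far_box (hδ : 0 < δ) (K : ℕ) (o : ℂ) (N : ℕ) : ∃ n : ℤ, ∀ w : ℤ × ℤ,
    n ≤ |w.1| + |w.2| → (N : ℤ) < |(box δ o K w).1| ∨ (N : ℤ) < |(box δ o K w).2| := by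
  have hm := mesh_pos (K + 1)
  have key : ∀ (a : ℝ) (x : ℤ), |col K a δ x| ≤ N →
      (|x| : ℝ) ≤ ((N + 1) * mesh (K + 1) + |a|) / δ := by
    intro a x h
    rw [abs_le] at h
    have h1 := Int.floor_le ((δ * x - a) / mesh (K + 1))
    have h2 := Int.lt_floor_add_one ((δ * x - a) / mesh (K + 1))
    rw [le_div_iff₀ hm] at h1
    rw [div_lt_iff₀ hm] at h2
    change ((col K a δ x : ℤ) : ℝ) * mesh (K + 1) ≤ δ * x - a at h1
    change δ * x - a < (((col K a δ x : ℤ) : ℝ) + 1) * mesh (K + 1) at h2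
    have h3 : (-(N : ℝ)) ≤ ((col K a δ x : ℤ) : ℝ) := by exact_mod_cast h.1
    have h4 : ((col K a δ x : ℤ) : ℝ) ≤ N := by exact_mod_cast h.2
    have h5 := neg_abs_le a
    have h6 := le_abs_self a
    rw [le_div_iff₀ hδ]
    have h7 : |(x : ℝ)| * δ = |δ * x| := by rw [abs_mul, abs_of_pos hδ, mul_comm]
    rw [h7, abs_le]
    constructor <;> nlinarith
  refine ⟨⌊((N + 1) * mesh (K + 1) + |o.re|) / δ + ((N + 1) * mesh (K + 1) + |o.im|) / δ⌋ + 1,
    fun w hw => ?_⟩
  by_contra hcon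
  push Not at hcon
  rw [box_eq] at hcon
  have h1 := key o.re w.1 hcon.1
  have h2 := key o.im w.2 hcon.2
  have h3 : ((|w.1| + |w.2| : ℤ) : ℝ) ≤ ((N + 1) * mesh (K + 1) + |o.re|) / δ +
      ((N + 1) * mesh (K + 1) + |o.im|) / δ := by push_cast; linarith
  have h4 := Int.le_floor.2 h3
  omega

/-- **Boxes of vertices which are not free** are not in a filling. -/
theorem notMem_fill (hδ : 0 < δ) (hm : 3 * δ ≤ mesh (K + 1)) (hg : Gen2 K o δ)
    {A : Finset (ℤ × ℤ)} (hA : ∀ v, NF E v → box δ o K v ∉ A) (hv : NF E v)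
    (hinf : ToInf E v) : box δ o K v ∉ fill A := by
  rw [mem_fill, not_not]
  obtain ⟨n, hn⟩ := exists_far_box hδ K o (bd A)
  obtain ⟨w, h1, h2⟩ := hinf n
  have h3 : box δ o K w ∈ Ext A := ext_of_far (hn w h2)
  clear hinf
  revert hv
  have key : NF E v → box δ o K v ∈ Ext A := by
    induction h1 using Relation.ReflTransGen.head_induction_on with
    | refl => intro _; exact h3
    | head hab _ ih =>
      intro hna
      have h4 := ih hab.2
      rcases box_step hδ hm hg hab.1 with h5 | h5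
      · rwa [← h5]
      · exact ext_adj h4 h5 (hA _ hna)
  exact key

variable {D : Set ℂ} {qb : Cell} {C : Finset Cell} {BB : Cell}

/-- The boxes of vertices which are not free are not in visible cells and not in the target. -/
lemma box_notMem_flat (hD : Bornology.IsBounded D) (hδ : 0 < δ) (hg : Gen2 K o δ)
    (hC : ∀ q ∈ C, q.1 ≤ K) (hCE : star (Vn δ o C) ⊆ E) (hv : NF E v) :
    box δ o K v ∉ flat K (Uk D δ o qb K E ∪ C) := by
  intro h
  obtain ⟨q, hq, h1⟩ := mem_flat.1 h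
  apply hv
  rcases mem_union.1 hq with h2 | h2
  · rw [mem_Uk hD] at h2
    have h3 := h2.head
    have h4 := (mem_verts_iff hδ hg h3.1.le).2 h1
    exact fun e he => h3.2.2 (star1_sub_star h4 he)
  · have h4 := (mem_verts_iff hδ hg (hC q h2)).2 h1
    exact fun e he => hCE (star1_sub_star (mem_Vn.2 ⟨q, h2, h4⟩) he)

/-- **Explored vertices**: a vertex which is not free and which is joined to infinity by such vertices
is not in the filled union of the visible cells and the target. -/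
theorem box_notMem_PP (hD : Bornology.IsBounded D) (hδ : 0 < δ) (hm : 3 * δ ≤ mesh (K + 1))
    (hg : Gen2 K o δ) (hC : ∀ q ∈ C, q.1 ≤ K) (hCE : star (Vn δ o C) ⊆ E) (hv : NF E v)
    (hinf : ToInf E v) : box δ o K v ∉ PP K (Uk D δ o qb K E) C :=
  notMem_fill hδ hm hg (fun _ hv => box_notMem_flat hD hδ hg hC hCE hv) hv hinf

lemma pt_mem_rect (K : ℕ) (o : ℂ) (δ : ℝ) (v : ℤ × ℤ) :
    pt δ v ∈ rect (gx K o.re) (gx K o.im) (box δ o K v) := by
  have hm := mesh_pos (K + 1)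
  have e : ∀ x y : ℝ, gx K y ⌊(x - y) / mesh (K + 1)⌋ ≤ x ∧
      x ≤ gx K y (⌊(x - y) / mesh (K + 1)⌋ + 1) := by
    intro x y
    have h1 := Int.floor_le ((x - y) / mesh (K + 1))
    have h2 := Int.lt_floor_add_one ((x - y) / mesh (K + 1))
    rw [le_div_iff₀ hm] at h1
    rw [div_lt_iff₀ hm] at h2
    unfold gx
    push_cast
    constructor <;> nlinarith
  exact ⟨e _ _, e _ _⟩

/-- the point of a vertex whose box is not in `Q` is not in the open region of `Q` -/
lemma pt_notMem_Om {Q : Finset (ℤ × ℤ)} (h : box δ o K v ∉ Q) :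
    pt δ v ∉ Om Q (gx K o.re) (gx K o.im) := fun h1 =>
  h (((mem_Om (gx_mono K o.re) (gx_mono K o.im)).1 h1).2 _ (pt_mem_rect K o δ v))

end

/-! ### The states of the chain -/

section

variable {D : Set ℂ} {a b : ℂ} {A₁ A₂ : Set ℂ} {A : Approx D a b A₁ A₂} {r0 : ℝ} (B : Base A r0)
  {k0 n K : ℕ} {ω : Finset (ℤ × ℤ)} {C : Finset Cell} {BB : Cell}

include B in
lemma Base_gen2 (K n : ℕ) : Gen2 K B.o (A.δ n) :=
  ⟨fun N x => (B.gen n (K + 1) N x).1, fun N x => (B.gen n (K + 1) N x).2⟩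

/-- **Explored vertices are not in the filled union** (any time of the exploration). -/
theorem Base_notMem_P (hD : Bornology.IsBounded D) (hm : 3 * A.δ n ≤ mesh (K + 1))
    (hC : ∀ q ∈ C, q.1 ≤ K) {t : ℕ} (hCE : star (Vn (A.δ n) B.o C) ⊆ Et (X0 A n) ω t)
    (hv : NF (Et (X0 A n) ω t) v) :
    box (A.δ n) B.o K v ∉ PP K (Uk D (A.δ n) B.o B.qb K (Et (X0 A n) ω t)) C :=
  box_notMem_PP hD (A.pos n) hm (Base_gen2 B K n) hC hCE hv (toInf_state (A.X n) hv)

/-- **Explored vertices are not in the region of the step**, the tip neither. -/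
theorem Base_notMem_Om (hD : Bornology.IsBounded D) (hm : 3 * A.δ n ≤ mesh (K + 1))
    (hC : ∀ q ∈ C, q.1 ≤ K) {t : ℕ} (hCE : star (Vn (A.δ n) B.o C) ⊆ Et (X0 A n) ω t)
    (b0 : ℤ × ℤ) (s : (ℤ × ℤ) × ℤ) (hv : NF (Et (X0 A n) ω t) v) :
    pt (A.δ n) v ∉ Om (SD.mk K (Uk D (A.δ n) B.o B.qb K (Et (X0 A n) ω t)) C BB b0 s).R
      (gx K B.o.re) (gx K B.o.im) :=
  pt_notMem_Om fun h => Base_notMem_P B hD hm hC hCE hv (Finset.mem_sdiff.1 (SD.R_sub h)).1

/-- the free labels of the state `X_j` -/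
lemma Base_E_eq (hω : ω ⊆ (X0 A n).E) (j : ℕ) :
    (B.X k0 n j ω).E = Et (X0 A n) ω (B.T k0 n j ω) := Rules.st_E _ hω j

/-- the tip of `X_j` is not free -/
theorem Base_nf_tip (hω : ω ⊆ (X0 A n).E) (j : ℕ) :
    NF (B.X k0 n j ω).E (vx (B.X k0 n j ω).α) := by
  rw [Base_E_eq B hω j, B.X_α hω j]
  exact nf_tip (A.X n)

/-- **Explored vertices of the state `X_j` are not in the region of the step.** -/
theorem Base_X_notMem_Om (hD : Bornology.IsBounded D) (hm : 3 * A.δ n ≤ mesh (K + 1))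
    (hω : ω ⊆ (X0 A n).E) (hC : ∀ q ∈ C, q.1 ≤ K) {j : ℕ}
    (hCE : star (Vn (A.δ n) B.o C) ⊆ (B.X k0 n j ω).E)
    (b0 : ℤ × ℤ) (s : (ℤ × ℤ) × ℤ) (hv : NF (B.X k0 n j ω).E v) :
    pt (A.δ n) v ∉ Om (SD.mk K (Uk D (A.δ n) B.o B.qb K (B.X k0 n j ω).E) C BB b0 s).R
      (gx K B.o.re) (gx K B.o.im) := by
  rw [Base_E_eq B hω j] at hCE hv ⊢
  exact Base_notMem_Om B hD hm hC hCE b0 s hv

end

end Pool.Agent.H53.Q1
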