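import Mathlib
import Pool.Agent.H53.Q1.J20.Expl
import Pool.Agent.H82.Q1.M7.Iface
import Pool.Agent.H14.NB.Tip0
import Pool.Agent.Q1.M3.Pg.SDC

set_option autoImplicit false
open Finset Filter Topology

/-! # M7, J20: the hypothesis `SD.Free` for the states of the chain

`fresh_star` : the labels at the cells of the barrier are free in `FreshS` states.
`far_fresh` : `FarS` gives `FreshS`.
`Base_free` : `SD.Free` for the data `SDj`. -/

namespace Pool.Agent.H53.Q1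

open Pool.Agent.H75.Perc Pool.Agent.H75.TwoArm Pool.Agent.H75.Four Pool.Agent.H69.Q1
open Pool.Agent.H99.NC
open Pool.Agent.Q1.M3 Pool.Agent.Q1.M3.Pg
open Pool.Agent.H81.Q1 (pt DDomain Approx IsJordanDomain IsArcs)
open Pool.Agent.H82.Q1.M7

section

variable {D : Set ℂ} {a b : ℂ} {A₁ A₂ : Set ℂ} {A : Approx D a b A₁ A₂} {r0 : ℝ} (B : Base A r0)

/-- the ends of a label are at distance at most `δ` -/
lemma dist_ends {δ : ℝ} (hδ : 0 < δ) {e v w : ℤ × ℤ} (hv : e ∈ star1 v) (hw : e ∈ star1 w) :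
    dist (pt δ v) (pt δ w) ≤ δ := by
  by_cases h : v = w
  · rw [h, dist_self]; exact hδ.le
  · obtain ⟨-, h2, -⟩ := star1_pair hv hw h
    rw [mem_dirs_iff] at h2
    obtain ⟨x, y⟩ := v
    obtain ⟨x', y'⟩ := w
    simp only [Prod.mk_sub_mk] at h2
    rw [Complex.dist_eq, Complex.norm_eq_sqrt_sq_add_sq]
    have e1 : (pt δ (x, y) - pt δ (x', y')).re = δ * x - δ * x' := by simp [pt]
    have e2 : (pt δ (x, y) - pt δ (x', y')).im = δ * y - δ * y' := by simp [pt]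
    rw [e1, e2]
    have h3 : (x' : ℝ) - x = ((x' - x : ℤ) : ℝ) := by push_cast; ring
    have h4 : (y' : ℝ) - y = ((y' - y : ℤ) : ℝ) := by push_cast; ring
    have h5 : (δ * x - δ * x') ^ 2 + (δ * y - δ * y') ^ 2 = δ ^ 2 := by
      have : (δ * (x : ℝ) - δ * x') ^ 2 + (δ * (y : ℝ) - δ * y') ^ 2 =
        δ ^ 2 * (((x' : ℝ) - x) ^ 2 + ((y' : ℝ) - y) ^ 2) := by ring
      rw [this, h3, h4]
      rcases h2 with ⟨h6, h7⟩ | ⟨h6, h7⟩ | ⟨h6, h7⟩ | ⟨h6, h7⟩ <;> rw [h6, h7] <;> norm_num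
    rw [h5, Real.sqrt_sq hδ.le]

/-- the ends of a label -/
lemma eu_end {e v : ℤ × ℤ} (hv : e ∈ star1 v) : e ∈ star1 (eu e) :=
  (mem_star1_iff (odd_star1 hv)).2 (Or.inl rfl)

/-- The labels at the vertices of the cells of the barrier are free in the states `FreshS`. -/
theorem fresh_star (hDo : IsOpen D) (hA : IsArcs D a b A₁ A₂) (M : ℕ) {ρ : ℝ} (hρ : 0 < ρ) :
    ∀ᶠ n in atTop, ∀ X : DEnv, FreshS B n ρ X → star (Vn (A.δ n) B.o (B.Q M)) ⊆ X.E := by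
  have h1 : ∀ᶠ n in atTop, A.δ n < ρ := A.lim.eventually (gt_mem_nhds hρ)
  filter_upwards [h1, Pool.Agent.H14.NB.free_cells hDo hA A B.o (F := B.Q M)
    fun c hc => (B.subQ M c hc).trans Set.inter_subset_left] with n hn hfree X hX e he
  obtain ⟨v, hv, hev⟩ := mem_star.1 he
  obtain ⟨q, hq, hvq⟩ := mem_Vn.1 hv
  by_contra hc
  have h2 : e ∈ (X0 A n).E := (hfree q hq).2 (star1_sub_star hvq hev)
  have h3 : pt (A.δ n) v ∈ Sbar B := by
    refine Set.mem_iUnion.2 ⟨M, Set.mem_iUnion₂.2 ⟨q, hq, ?_⟩⟩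
    have h4 := (mem_verts (A.pos n)).1 hvq
    exact ⟨h4.1.le, h4.2.1.le, h4.2.2.1.le, h4.2.2.2.le⟩
  have h5 := hX e h2 hc _ h3
  have h6 := dist_ends (A.pos n) (eu_end hev) hev
  linarith

/-- `FarS` gives `FreshS`. -/
theorem far_fresh {ρ ρ' : ℝ} (h : ρ' < ρ) : ∀ᶠ n in atTop, ∀ k0 j ω, ω ⊆ (X0 A n).E →
    FarS B n ρ k0 j ω → FreshS B n ρ' (B.X k0 n j ω) := by
  have h1 : ∀ᶠ n in atTop, A.δ n < ρ - ρ' := A.lim.eventually (gt_mem_nhds (by linarith))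
  filter_upwards [h1] with n hn k0 j ω hω hf e he hne z hz
  rw [Base_E_eq B hω j] at hne
  unfold Et at hne
  rw [Finset.mem_sdiff, not_and_not_right] at hne
  obtain ⟨-, i, hi, hie⟩ := Rules.mem_metE.1 (hne he)
  have h2 := hf i hi.le z hz
  have h3 : e ∈ star1 (vx ((X0 A n).cor ω i)) := by rw [← hie]; exact plab_star1 _
  have h4 := dist_ends (A.pos n) h3 (eu_end h3)
  have h5 := dist_triangle (pt (A.δ n) (vx ((X0 A n).cor ω i))) (pt (A.δ n) (eu e)) z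
  linarith

/-- The vertices of `B.N n` are in the target. -/
theorem Base_N_target (P : Par B) {K : ℕ} (hQK : ∀ q ∈ B.Q P.M, q.1 ≤ K) (hBK : P.BB.1 ≤ K) :
    ∀ᶠ n in atTop, ∀ v ∈ B.N n, box (A.δ n) B.o K v ∈ flat K (B.Q P.M) ∨
      box (A.δ n) B.o K v ∈ fc K P.BB := by
  filter_upwards [B.hN P.M] with n hn v hv
  obtain ⟨N', e1, h1⟩ := hn
  rw [e1, mem_union] at hv
  rcases hv with hv | hv
  · obtain ⟨q, hq, hvq⟩ := mem_Vn.1 hv
    exact Or.inl (mem_flat.2 ⟨q, hq,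
      (mem_verts_iff (A.pos n) (Base_gen2 B K n) (hQK q hq)).1 hvq⟩)
  · exact Or.inr ((mem_verts_iff (A.pos n) (Base_gen2 B K n) hBK).1
      ((mem_verts (A.pos n)).2 (P.ball (h1 v hv))))

/-- **`SD.Free` for the states of the chain.** -/
theorem Base_free (hD : Bornology.IsBounded D) (P : Par B) {K : ℕ}
    (hQK : ∀ q ∈ B.Q P.M, q.1 ≤ K) (hBK : P.BB.1 ≤ K) :
    ∀ᶠ n in atTop, ∀ (k0 j : ℕ) (ω : Finset (ℤ × ℤ)), ω ⊆ (X0 A n).E →
      star (Vn (A.δ n) B.o (B.Q P.M)) ⊆ (B.X k0 n (j + 1) ω).E →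
      ∀ Y : DEnv, (B.X k0 n (j + 1) ω).E ⊆ Y.E →
        (SDj B P k0 K n j ω).Free B.o (A.δ n) Y (B.N n) := by
  have h1 : ∀ᶠ n in atTop, A.δ n < mesh (K + 1) / 3 :=
    A.lim.eventually (gt_mem_nhds (by have := mesh_pos (K + 1); positivity))
  filter_upwards [h1, Base_N_target B P hQK hBK] with n hn hN k0 j ω hω hst Y hY
  refine ⟨fun v hv => ?_, fun v hv hR => ?_⟩
  · by_contra hc
    have h2 : NF (B.X k0 n (j + 1) ω).E v := fun h3 => hc (h3.trans hY)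
    have h3 := (Finset.mem_sdiff.1 (SD.R_sub hv)).1
    rw [Base_E_eq B hω (j + 1)] at h2 hst
    have h4 := Base_notMem_P B (C := B.Q P.M) hD (K := K) (by linarith) hQK hst h2
    apply h4
    rw [← Base_E_eq B hω (j + 1)]
    exact h3
  · obtain ⟨h2, h3⟩ := Finset.mem_sdiff.1 (SD.R_sub hR)
    apply h3
    rcases hN v hv with h4 | h4
    · exact mem_union_left _ h4
    · exact mem_union_right _ (mem_inter.2 ⟨h4, h2⟩)

end

end Pool.Agent.H53.Q1
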